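import Mathlib

/-!
# A 3-chordal 3-closure on nine vertices with a simplicial face whose deletion is not 3-chordal

`MP_eff1f1_co`, Q1: is `Γ⟨E⟩` again `d`-chordal for every `d`-chordal `d`-closure `Γ` and every
simplicial face `E`? No, for `d = 3` and nine vertices.

The start is the clique complex of the 4-sets of `{0, …, 7}` together with the cone, with the
ninth vertex as apex, over the triangulation of the dunce hat with eight vertices and seventeen
triangles (`H0`, 87 sets of size 4). It has a simplicial order of 52 deletions (`good`), but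
another sequence of 14 deletions of simplicial faces (`bad`) ends in a complex (`T`, 44 sets of
size 4) in which every simplicial face is a facet. So somewhere in the second sequence a
3-chordal complex is followed by one that is not 3-chordal. The sets are coded by bit masks and the
two sequences are checked by computation in the kernel.
-/

namespace Pool.Agent.Results.MP_eff1f1_co.DeletionFails

variable {n : ℕ}

/-- A family of subsets of the `n` vertices that is closed under taking subsets. -/
def IsComplex (Γ : Set (Finset (Fin n))) : Prop :=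
  ∀ F ∈ Γ, ∀ G : Finset (Fin n), G ⊆ F → G ∈ Γ

/-- The `d`-closure `Δ_d(Γ)`: all sets with at most `d` elements, and the larger sets all of whose
`(d+1)`-element subsets are in `Γ`. -/
def dClosure (d : ℕ) (Γ : Set (Finset (Fin n))) : Set (Finset (Fin n)) :=
  {F | F.card ≤ d ∨ (d + 1 ≤ F.card ∧ ∀ G : Finset (Fin n), G ⊆ F → G.card = d + 1 → G ∈ Γ)}

/-- `Γ` is a simplicial complex that equals its own `d`-closure. -/
def IsDClosure (d : ℕ) (Γ : Set (Finset (Fin n))) : Prop :=
  IsComplex Γ ∧ Γ = dClosure d Γ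

/-- Facets are the inclusion-maximal faces. -/
def IsFacet (Γ : Set (Finset (Fin n))) (F : Finset (Fin n)) : Prop :=
  F ∈ Γ ∧ ∀ G ∈ Γ, F ⊆ G → G = F

/-- A free face (a face in exactly one facet) of dimension `d - 1`, i.e. with `d` elements. -/
def IsSimplicial (d : ℕ) (Γ : Set (Finset (Fin n))) (E : Finset (Fin n)) : Prop :=
  E ∈ Γ ∧ E.card = d ∧ ∃! F : Finset (Fin n), IsFacet Γ F ∧ E ⊆ F

/-- `Γ⟨E⟩`: remove every face that strictly contains `E`. -/
def del (Γ : Set (Finset (Fin n))) (E : Finset (Fin n)) : Set (Finset (Fin n)) :=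
  {F | F ∈ Γ ∧ ¬ E ⊂ F}

/-- The list `E₁, E₂, …` is a simplicial order of `Γ`: each `Eᵢ` is simplicial and not a facet
in `Γ⟨E₁⟩⋯⟨Eᵢ₋₁⟩`, and the last complex consists of all sets with at most `d` elements.  The
empty list is allowed; it is an order exactly for that last complex. -/
def IsSimplicialOrder (d : ℕ) : Set (Finset (Fin n)) → List (Finset (Fin n)) → Prop
  | Γ, [] => Γ = {F | F.card ≤ d}
  | Γ, E :: L => IsSimplicial d Γ E ∧ ¬ IsFacet Γ E ∧ IsSimplicialOrder d (del Γ E) L

/-- `d`-chordal complexes. -/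
def IsChordal (d : ℕ) (Γ : Set (Finset (Fin n))) : Prop :=
  IsDClosure d Γ ∧ ∃ L : List (Finset (Fin n)), IsSimplicialOrder d Γ L

/-! ### The closure of a family of `(d+1)`-sets -/

/-- the clique complex of a family of `(d+1)`-sets -/
def cl (d : ℕ) (h : Finset (Fin n) → Prop) : Set (Finset (Fin n)) :=
  {F | ∀ G : Finset (Fin n), G ⊆ F → G.card = d + 1 → h G}

theorem cl_closure (d : ℕ) (h : Finset (Fin n) → Prop) : IsDClosure d (cl d h) := by
  refine ⟨fun F hF G hG G' hG' hc => hF G' (hG'.trans hG) hc, ?_⟩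
  ext F
  constructor
  · intro hF
    by_cases hc : F.card ≤ d
    · exact Or.inl hc
    · refine Or.inr ⟨by omega, fun G hG _ G' hG' hc' => hF G' (hG'.trans hG) hc'⟩
  · rintro (hc | ⟨_, hF⟩)
    · intro G hG hGc
      have := Finset.card_le_card hG
      omega
    · intro G hG hGc
      exact hF G hG hGc G (Finset.Subset.refl _) hGc

theorem mem_cl_of_card {d : ℕ} {h : Finset (Fin n) → Prop} {F : Finset (Fin n)} (hF : F.card ≤ d) :
    F ∈ cl d h := by
  intro G hG hGc
  have := Finset.card_le_card hG
  omega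

theorem step_simplicial {d : ℕ} {h : Finset (Fin n) → Prop} {E F : Finset (Fin n)}
    (hE : E.card = d) (hEF : E ⊂ F) (ha : ∀ v, v ∉ E → h (insert v E) → v ∈ F)
    (hb : ∀ G : Finset (Fin n), G ⊆ F → G.card = d + 1 → h G) :
    IsSimplicial d (cl d h) E ∧ ¬ IsFacet (cl d h) E := by
  have hFmem : F ∈ cl d h := hb
  have key : ∀ G ∈ cl d h, E ⊆ G → G ⊆ F := by
    intro G hG hEG v hv
    by_cases hvE : v ∈ E
    · exact hEF.1 hvE
    · exact ha v hvE (hG _ (Finset.insert_subset hv hEG) (by
        rw [Finset.card_insert_of_notMem hvE, hE]))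
  refine ⟨⟨mem_cl_of_card hE.le, hE, F, ⟨⟨hFmem, ?_⟩, hEF.1⟩, ?_⟩, ?_⟩
  · intro G hG hFG
    exact Finset.Subset.antisymm (key G hG (hEF.1.trans hFG)) hFG
  · rintro G ⟨⟨hG, hGmax⟩, hEG⟩
    exact (hGmax F hFmem (key G hG hEG)).symm
  · rintro ⟨_, hmax⟩
    have := hmax F hFmem hEF.1
    rw [this] at hEF
    exact hEF.2 (Finset.Subset.refl _)

theorem del_cl {d : ℕ} {h : Finset (Fin n) → Prop} {E : Finset (Fin n)} (hE : E.card = d) :
    del (cl d h) E = cl d (fun G => h G ∧ ¬ E ⊆ G) := by
  ext F
  constructor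
  · rintro ⟨hF, hEF⟩ G hG hGc
    refine ⟨hF G hG hGc, fun hEG => hEF ?_⟩
    refine (Finset.ssubset_iff_subset_ne.2 ⟨hEG.trans hG, ?_⟩)
    rintro rfl
    have := Finset.card_le_card hG
    omega
  · intro hF
    refine ⟨fun G hG hGc => (hF G hG hGc).1, fun hEF => ?_⟩
    obtain ⟨v, hv, hvE⟩ := Finset.exists_of_ssubset hEF
    exact (hF (insert v E) (Finset.insert_subset hv hEF.1)
      (by rw [Finset.card_insert_of_notMem hvE, hE])).2 (Finset.subset_insert _ _)

theorem simplicial_clique {d : ℕ} {h : Finset (Fin n) → Prop} {E : Finset (Fin n)}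
    (hs : IsSimplicial d (cl d h) E) (hf : ¬ IsFacet (cl d h) E) :
    (∃ v, v ∉ E ∧ h (insert v E)) ∧
      ∀ G : Finset (Fin n), (∀ v ∈ G, v ∈ E ∨ h (insert v E)) → G.card = d + 1 → h G := by
  obtain ⟨hEm, hEc, F, ⟨⟨hFm, hFmax⟩, hEF⟩, huniq⟩ := hs
  have hext : ∀ G ∈ cl d h, E ⊆ G → G ⊆ F := by
    intro G hG hEG
    obtain ⟨M, hGM, hM⟩ := (Set.toFinite (cl d h)).exists_le_maximal hG
    have hMf : IsFacet (cl d h) M :=
      ⟨hM.1, fun K hK hMK => Finset.Subset.antisymm (hM.2 hK hMK) hMK⟩
    have : M = F := huniq M ⟨hMf, hEG.trans hGM⟩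
    rw [← this]
    exact hGM
  have hins : ∀ v, v ∉ E → h (insert v E) → insert v E ∈ cl d h := by
    intro v hv hh G hG hGc
    have : G = insert v E := Finset.eq_of_subset_of_card_le hG (by
      rw [Finset.card_insert_of_notMem hv, hGc, hEc])
    rw [this]
    exact hh
  constructor
  · by_contra hcon
    push Not at hcon
    apply hf
    refine ⟨hEm, fun G hG hEG => ?_⟩
    by_contra hne
    have hss : E ⊂ G := Finset.ssubset_iff_subset_ne.2 ⟨hEG, fun h' => hne h'.symm⟩
    obtain ⟨v, hv, hvE⟩ := Finset.exists_of_ssubset hss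
    exact hcon v hvE (hG _ (Finset.insert_subset hv hEG)
      (by rw [Finset.card_insert_of_notMem hvE, hEc]))
  · intro G hG hGc
    refine hFm G ?_ hGc
    intro v hv
    by_cases hvE : v ∈ E
    · exact hEF hvE
    · rcases hG v hv with h1 | h1
      · exact hEF h1
      · exact hext _ (hins v hvE h1) (Finset.subset_insert _ _) (Finset.mem_insert_self _ _)

/-! ### Bit masks -/

/-- bit mask of a subset of nine points -/
def mask (G : Finset (Fin 9)) : ℕ := Nat.ofBits (fun i : Fin 9 => decide (i ∈ G))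

/-- the subset of nine points with a given bit mask -/
def toF (m : ℕ) : Finset (Fin 9) := Finset.univ.filter (fun i : Fin 9 => m.testBit i = true)

theorem testBit_mask (G : Finset (Fin 9)) (i : Fin 9) : (mask G).testBit i = decide (i ∈ G) := by
  unfold mask
  rw [Nat.testBit_ofBits_lt _ _ i.2]

theorem testBit_mask_ge (G : Finset (Fin 9)) (i : ℕ) (hi : 9 ≤ i) : (mask G).testBit i = false := by
  unfold mask
  rw [Nat.testBit_ofBits_ge _ _ hi]

theorem mem_toF (m : ℕ) (i : Fin 9) : i ∈ toF m ↔ m.testBit i = true := by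
  simp [toF]

theorem testBit_ge {m : ℕ} (hm : m < 512) {i : ℕ} (hi : 9 ≤ i) : m.testBit i = false := by
  apply Nat.testBit_lt_two_pow
  calc m < 2 ^ 9 := by norm_num; exact hm
    _ ≤ 2 ^ i := Nat.pow_le_pow_right (by norm_num) hi

theorem mask_eq {G : Finset (Fin 9)} {m : ℕ} (hm : m < 512)
    (h : ∀ i : Fin 9, i ∈ G ↔ m.testBit i = true) : mask G = m := by
  apply Nat.eq_of_testBit_eq
  intro i
  by_cases hi : i < 9
  · have := testBit_mask G ⟨i, hi⟩
    simp only at this
    rw [this]
    have h2 := h ⟨i, hi⟩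
    simp only at h2
    by_cases hG : (⟨i, hi⟩ : Fin 9) ∈ G
    · rw [decide_eq_true hG, h2.1 hG]
    · rw [decide_eq_false hG]
      rcases hb : m.testBit i with _ | _
      · rfl
      · exact absurd (h2.2 hb) hG
  · rw [testBit_mask_ge G i (by omega), testBit_ge hm (by omega)]

theorem mask_toF {m : ℕ} (hm : m < 512) : mask (toF m) = m :=
  mask_eq hm (fun i => mem_toF m i)

theorem mask_lt (G : Finset (Fin 9)) : mask G < 512 := by
  unfold mask
  have := Nat.ofBits_lt_two_pow (fun i : Fin 9 => decide (i ∈ G))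
  norm_num at this
  exact this

theorem toF_mask (G : Finset (Fin 9)) : toF (mask G) = G := by
  ext i
  rw [mem_toF, testBit_mask]
  simp

theorem mask_insert {m : ℕ} (hm : m < 512) (v : Fin 9) :
    mask (insert v (toF m)) = m ||| 2 ^ (v : ℕ) := by
  apply mask_eq
  · apply Nat.or_lt_two_pow (n := 9)
    · norm_num; exact hm
    · exact Nat.pow_lt_pow_right (by norm_num) v.2
  · intro i
    rw [Finset.mem_insert, mem_toF, Nat.testBit_or, Nat.testBit_two_pow, Bool.or_eq_true,
      decide_eq_true_eq, Fin.ext_iff]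
    tauto

/-- number of elements of the set with mask `m` -/
def pc (m : ℕ) : ℕ := ((List.finRange 9).map (fun i : Fin 9 => (m.testBit i).toNat)).sum

theorem card_eq_pc (G : Finset (Fin 9)) : G.card = pc (mask G) := by
  have h1 : G.card = ∑ i : Fin 9, if i ∈ G then 1 else 0 := by
    rw [Finset.card_eq_sum_ones, Finset.sum_ite_mem, Finset.univ_inter]
  rw [h1, Fin.sum_univ_def]
  unfold pc
  congr 1
  apply List.map_congr_left
  intro i _
  rw [testBit_mask]
  by_cases h : i ∈ G <;> simp [h]

def H0 : List ℕ :=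
  [15, 23, 27, 29, 30, 39, 43, 45, 46, 51, 53, 54, 57, 58, 60, 71, 75, 77, 78, 83, 85, 86, 89,
  90, 92, 99, 101, 102, 105, 106, 108, 113, 114, 116, 120, 135, 139, 141, 142, 147, 149, 150,
  153, 154, 156, 163, 165, 166, 169, 170, 172, 177, 178, 180, 184, 195, 197, 198, 201, 202, 204,
  209, 210, 212, 216, 225, 226, 228, 232, 240, 267, 275, 281, 270, 396, 408, 432, 306, 294, 389,
  387, 450, 480, 326, 325, 353, 293]

def T : List ℕ :=
  [43, 46, 51, 53, 57, 60, 75, 78, 83, 85, 89, 92, 99, 101, 102, 105, 106, 108, 113, 114, 116,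
  120, 147, 149, 156, 210, 240, 267, 275, 281, 270, 396, 408, 432, 306, 294, 389, 387, 450, 480,
  326, 325, 353, 293]

def good : List (ℕ × ℕ) :=
  [(168, 255), (164, 247), (104, 127), (200, 223), (137, 159), (196, 215), (193, 243), (74, 95),
  (67, 119), (41, 63), (73, 93), (44, 62), (81, 117), (13, 31), (138, 158), (208, 242), (161,
  179), (145, 151), (82, 118), (21, 55), (112, 116), (88, 92), (42, 58), (52, 54), (49, 51),
  (35, 39), (7, 135), (133, 389), (134, 150), (148, 156), (131, 387), (386, 450), (194, 226),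
  (322, 326), (70, 102), (388, 396), (100, 101), (392, 408), (38, 294), (22, 30), (162, 178),
  (400, 432), (280, 281), (304, 306), (25, 27), (97, 353), (321, 325), (11, 267), (448, 480),
  (268, 270), (19, 275), (289, 293)]

def bad : List (ℕ × ℕ) :=
  [(134, 255), (138, 251), (200, 253), (22, 127), (26, 123), (162, 243), (168, 189), (7, 111),
  (196, 245), (137, 157), (13, 125), (164, 181), (161, 241), (193, 211)]

def cert : List (ℕ × ℕ) :=
  [(7, 0), (11, 291), (13, 0), (14, 298), (19, 163), (21, 165), (22, 0), (25, 297), (26, 0),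
  (28, 172), (35, 27), (37, 277), (38, 298), (41, 27), (42, 15), (44, 30), (49, 15), (50, 291),
  (52, 29), (56, 29), (67, 27), (69, 277), (70, 298), (73, 27), (74, 15), (76, 30), (81, 15),
  (82, 163), (84, 29), (88, 29), (97, 15), (98, 15), (100, 15), (104, 15), (112, 15), (131,
  401), (133, 277), (134, 0), (137, 0), (138, 0), (140, 284), (145, 23), (146, 195), (148, 29),
  (152, 284), (161, 0), (162, 0), (164, 0), (168, 0), (176, 368), (193, 0), (194, 338), (196,
  0), (200, 0), (208, 178), (224, 368), (259, 27), (261, 165), (262, 298), (265, 27), (266, 15),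
  (268, 142), (273, 27), (274, 291), (276, 0), (280, 153), (289, 356), (290, 54), (292, 39),
  (296, 0), (304, 178), (321, 356), (322, 198), (324, 71), (328, 0), (336, 0), (352, 225), (385,
  135), (386, 195), (388, 141), (392, 284), (400, 184), (416, 368), (448, 226)]

def L4 : List ℕ :=
  [15, 23, 27, 29, 30, 39, 43, 45, 46, 51, 53, 54, 57, 58, 60, 71, 75, 77, 78, 83, 85, 86, 89,
  90, 92, 99, 101, 102, 105, 106, 108, 113, 114, 116, 120, 135, 139, 141, 142, 147, 149, 150,
  153, 154, 156, 163, 165, 166, 169, 170, 172, 177, 178, 180, 184, 195, 197, 198, 201, 202, 204,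
  209, 210, 212, 216, 225, 226, 228, 232, 240, 263, 267, 269, 270, 275, 277, 278, 281, 282, 284,
  291, 293, 294, 297, 298, 300, 305, 306, 308, 312, 323, 325, 326, 329, 330, 332, 337, 338, 340,
  344, 353, 354, 356, 360, 368, 387, 389, 390, 393, 394, 396, 401, 402, 404, 408, 417, 418, 420,
  424, 432, 449, 450, 452, 456, 464, 480]

def L3 : List ℕ :=
  [7, 11, 13, 14, 19, 21, 22, 25, 26, 28, 35, 37, 38, 41, 42, 44, 49, 50, 52, 56, 67, 69, 70,
  73, 74, 76, 81, 82, 84, 88, 97, 98, 100, 104, 112, 131, 133, 134, 137, 138, 140, 145, 146,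
  148, 152, 161, 162, 164, 168, 176, 193, 194, 196, 200, 208, 224, 259, 261, 262, 265, 266, 268,
  273, 274, 276, 280, 289, 290, 292, 296, 304, 321, 322, 324, 328, 336, 352, 385, 386, 388, 392,
  400, 416, 448]

theorem mem_L4 : ∀ m < 512, pc m = 4 → m ∈ L4 := by decide +kernel

theorem mem_L3 : ∀ m < 512, pc m = 3 → m ∈ L3 := by decide +kernel

theorem L3_spec : ∀ m ∈ L3, m < 512 ∧ pc m = 3 := by decide +kernel

/-- the clique complex of the 4-sets whose masks are in the list `H` -/
def K (H : List ℕ) : Set (Finset (Fin 9)) := cl 3 (fun G => mask G ∈ H)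

/-- check that `e` is the mask of a simplicial triple with facet mask `f` -/
def ok (H : List ℕ) (e f : ℕ) : Bool :=
  L3.contains e && decide (f < 512) && (f &&& e == e) && (f != e) &&
    (List.finRange 9).all (fun v => !(H.contains (e ||| 2 ^ (v : ℕ))) || f.testBit v) &&
    L4.all (fun m => (m &&& f != m) || H.contains m)

/-- remove the 4-sets containing the triple `e` -/
def rem (H : List ℕ) (e : ℕ) : List ℕ := H.filter (fun m => m &&& e != e)

theorem subset_iff_and {G E : Finset (Fin 9)} {m e : ℕ} (hG : mask G = m) (hE : mask E = e) :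
    E ⊆ G ↔ m &&& e = e := by
  subst hG hE
  constructor
  · intro h
    apply Nat.eq_of_testBit_eq
    intro i
    rw [Nat.testBit_and]
    by_cases hi : i < 9
    · have h1 := testBit_mask G ⟨i, hi⟩
      have h2 := testBit_mask E ⟨i, hi⟩
      simp only at h1 h2
      rw [h1, h2]
      by_cases hE : (⟨i, hi⟩ : Fin 9) ∈ E
      · simp [hE, h hE]
      · simp [hE]
    · rw [testBit_mask_ge E i (by omega), Bool.and_false]
  · intro h i hi
    have h1 := testBit_mask E i
    rw [decide_eq_true hi, ← h, Nat.testBit_and, Bool.and_eq_true] at h1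
    have h2 := testBit_mask G i
    rw [h1.1] at h2
    exact of_decide_eq_true h2.symm

theorem ok_spec {H : List ℕ} {e f : ℕ} (h : ok H e f = true) :
    IsSimplicial 3 (K H) (toF e) ∧ ¬ IsFacet (K H) (toF e) ∧ del (K H) (toF e) = K (rem H e) := by
  unfold ok at h
  simp only [Bool.and_eq_true, List.contains_iff_mem, decide_eq_true_eq, beq_iff_eq, bne_iff_ne,
    ne_eq, List.all_eq_true, Bool.or_eq_true, Bool.not_eq_true'] at h
  obtain ⟨⟨⟨⟨⟨h1, h2⟩, h3⟩, h4⟩, h5⟩, h6⟩ := h
  obtain ⟨he, hpe⟩ := L3_spec e h1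
  have hEc : (toF e).card = 3 := by rw [card_eq_pc, mask_toF he, hpe]
  have hEF : toF e ⊂ toF f := by
    rw [Finset.ssubset_iff_subset_ne]
    refine ⟨(subset_iff_and (mask_toF h2) (mask_toF he)).2 h3, fun hh => h4 ?_⟩
    rw [← mask_toF h2, ← hh, mask_toF he]
  have hs := step_simplicial (d := 3) (h := fun G => mask G ∈ H) hEc hEF ?_ ?_
  · refine ⟨hs.1, hs.2, ?_⟩
    unfold K
    rw [del_cl hEc]
    congr 1
    funext G
    unfold rem
    rw [List.mem_filter, bne_iff_ne, ne_eq, ← subset_iff_and rfl (mask_toF he)]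
  · intro v hv hh
    rw [mem_toF]
    simp only [mask_insert he] at hh
    rcases h5 v (List.mem_finRange v) with h7 | h7
    · exfalso
      rw [← Bool.not_eq_true, List.contains_iff_mem] at h7
      exact h7 hh
    · exact h7
  · intro G hG hGc
    have hm : mask G ∈ L4 := mem_L4 _ (mask_lt G) (by rw [← card_eq_pc, hGc])
    rcases h6 _ hm with h7 | h7
    · exfalso
      apply h7
      have := (subset_iff_and (mask_toF h2) rfl).1 hG
      rw [Nat.and_comm]
      exact this
    · exact h7

/-- run a list of certified deletions -/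
def run : List ℕ → List (ℕ × ℕ) → Option (List ℕ)
  | H, [] => some H
  | H, (e, f) :: L => if ok H e f then run (rem H e) L else none

theorem run_good : run H0 good = some [] := by decide +kernel

theorem run_bad : run H0 bad = some T := by decide +kernel

theorem order_of_run : ∀ (L : List (ℕ × ℕ)) (H : List ℕ), run H L = some [] →
    ∃ M : List (Finset (Fin 9)), IsSimplicialOrder 3 (K H) M := by
  intro L
  induction L with
  | nil =>
    intro H h
    simp only [run, Option.some.injEq] at h
    subst h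
    refine ⟨[], ?_⟩
    show K [] = {F | F.card ≤ 3}
    ext F
    constructor
    · intro hF
      by_contra hc
      have hc' : ¬ F.card ≤ 3 := hc
      obtain ⟨G, hG, hGc⟩ := Finset.exists_subset_card_eq (show 4 ≤ F.card by omega)
      exact absurd (hF G hG hGc) (List.not_mem_nil)
    · intro hF
      exact mem_cl_of_card hF
  | cons p L ih =>
    intro H h
    obtain ⟨e, f⟩ := p
    by_cases hok : ok H e f = true
    · simp only [run, hok, if_true] at h
      obtain ⟨M, hM⟩ := ih _ h
      obtain ⟨h1, h2, h3⟩ := ok_spec hok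
      refine ⟨toF e :: M, h1, h2, ?_⟩
      rw [h3]
      exact hM
    · simp [run, hok] at h

theorem chordal_H0 : IsChordal 3 (K H0) := ⟨cl_closure _ _, order_of_run _ _ run_good⟩

theorem chordal_of_run
    (hyp : ∀ (Γ : Set (Finset (Fin 9))) (E : Finset (Fin 9)), IsChordal 3 Γ →
      IsSimplicial 3 Γ E → IsChordal 3 (del Γ E)) :
    ∀ (L : List (ℕ × ℕ)) (H H' : List ℕ), run H L = some H' → IsChordal 3 (K H) →
      IsChordal 3 (K H') := by
  intro L
  induction L with
  | nil =>
    intro H H' h hH
    simp only [run, Option.some.injEq] at h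
    subst h
    exact hH
  | cons p L ih =>
    intro H H' h hH
    obtain ⟨e, f⟩ := p
    by_cases hok : ok H e f = true
    · simp only [run, hok, if_true] at h
      obtain ⟨h1, h2, h3⟩ := ok_spec hok
      apply ih _ _ h
      rw [← h3]
      exact hyp _ _ hH h1
    · simp [run, hok] at h

/-- check that no triple is simplicial and not a facet -/
def stuck (T : List ℕ) (c : List (ℕ × ℕ)) : Bool :=
  c.all (fun p =>
    (List.finRange 9).all (fun v => p.1.testBit v || !T.contains (p.1 ||| 2 ^ (v : ℕ))) ||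
      (decide (p.2 < 512) && (pc p.2 == 4) && !T.contains p.2 &&
        (List.finRange 9).all
          (fun v => !p.2.testBit v || p.1.testBit v || T.contains (p.1 ||| 2 ^ (v : ℕ)))))

theorem stuck_T : stuck T cert = true := by decide +kernel

theorem cert_L3 : cert.map Prod.fst = L3 := by decide +kernel

theorem not_simplicial_T (E : Finset (Fin 9)) :
    ¬ (IsSimplicial 3 (K T) E ∧ ¬ IsFacet (K T) E) := by
  rintro ⟨hs, hf⟩
  obtain ⟨⟨v, hv, hvT⟩, hcl⟩ := simplicial_clique hs hf
  have hc : E.card = 3 := hs.2.1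
  have hm : mask E ∈ L3 := mem_L3 _ (mask_lt E) (by rw [← card_eq_pc, hc])
  rw [← cert_L3, List.mem_map] at hm
  obtain ⟨⟨e, m⟩, hp, he⟩ := hm
  simp only at he
  have hEe : E = toF e := by rw [he, toF_mask]
  have he5 : e < 512 := by rw [he]; exact mask_lt E
  have hst := stuck_T
  unfold stuck at hst
  rw [List.all_eq_true] at hst
  have h0 := hst _ hp
  simp only [Bool.or_eq_true, Bool.and_eq_true, List.all_eq_true, decide_eq_true_eq, beq_iff_eq,
    Bool.not_eq_true'] at h0
  subst hEe
  rcases h0 with h1 | ⟨⟨⟨h1, h2⟩, h3⟩, h4⟩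
  · rcases h1 v (List.mem_finRange v) with h5 | h5
    · exact hv ((mem_toF e v).2 h5)
    · rw [mask_insert he5] at hvT
      rw [← Bool.not_eq_true, List.contains_iff_mem] at h5
      exact h5 hvT
  · have h5 := hcl (toF m) ?_ ?_
    · rw [mask_toF h1] at h5
      rw [← Bool.not_eq_true, List.contains_iff_mem] at h3
      exact h3 h5
    · intro w hw
      rw [mem_toF] at hw
      rcases h4 w (List.mem_finRange w) with (h6 | h6) | h6
      · rw [hw] at h6; exact absurd h6 (by simp)
      · exact Or.inl ((mem_toF e w).2 h6)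
      · right
        rw [mask_insert he5]
        exact List.contains_iff_mem.1 h6
    · rw [card_eq_pc, mask_toF h1, h2]

theorem T_mem : ∃ m ∈ T, m < 512 ∧ pc m = 4 := by decide +kernel

theorem not_chordal_T : ¬ IsChordal 3 (K T) := by
  rintro ⟨_, L, hL⟩
  cases L with
  | nil =>
    have hL' : K T = {F | F.card ≤ 3} := hL
    obtain ⟨m, hmT, hm, hpc⟩ := T_mem
    have hmem : toF m ∈ K T := by
      intro G hG hGc
      have : G = toF m := Finset.eq_of_subset_of_card_le hG (by
        rw [card_eq_pc (toF m), mask_toF hm, hpc, hGc])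
      rw [this, mask_toF hm]
      exact hmT
    rw [hL'] at hmem
    have : (toF m).card ≤ 3 := hmem
    rw [card_eq_pc (toF m), mask_toF hm, hpc] at this
    omega
  | cons E L =>
    exact not_simplicial_T E ⟨hL.1, hL.2.1⟩

/-- There are a `3`-chordal `3`-closure on nine vertices and a simplicial face `E` of it whose
deletion `Γ⟨E⟩` is not `3`-chordal. -/
theorem result : ∃ (Γ : Set (Finset (Fin 9))) (E : Finset (Fin 9)),
    IsChordal 3 Γ ∧ IsSimplicial 3 Γ E ∧ ¬ IsChordal 3 (del Γ E) := by
  by_contra hcon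
  push Not at hcon
  exact not_chordal_T (chordal_of_run hcon bad H0 T run_bad chordal_H0)

end Pool.Agent.Results.MP_eff1f1_co.DeletionFails
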